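import Mathlib

set_option autoImplicit false

namespace Pool.Agent.Results.MP_c852bb_co.DiameterTwoLDC

variable {V : Type*} [Fintype V] [DecidableEq V]

/-- `D` is a locating-dominating set of `G`: every vertex outside `D` has a neighbour in `D`, and
distinct vertices outside `D` have distinct sets of neighbours in `D`. -/
def IsLD (G : SimpleGraph V) (D : Finset V) : Prop :=
  (∀ v, v ∉ D → ∃ u ∈ D, G.Adj v u) ∧
  ∀ u v, u ∉ D → v ∉ D → u ≠ v →
    G.neighborSet u ∩ (D : Set V) ≠ G.neighborSet v ∩ (D : Set V)

/-- Two disjoint sets form an LD-coalition if neither is an LD-set but their union is. -/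
def IsLDCoalition (G : SimpleGraph V) (X Y : Finset V) : Prop :=
  Disjoint X Y ∧ ¬ IsLD G X ∧ ¬ IsLD G Y ∧ IsLD G (X ∪ Y)

/-- An LDC-partition: a partition of the vertex set into nonempty parts, none of which is an
LD-set, each part forming an LD-coalition with some other part. -/
def IsLDCPartition (G : SimpleGraph V) (P : Finpartition (Finset.univ : Finset V)) : Prop :=
  ∀ X ∈ P.parts, ¬ IsLD G X ∧ ∃ Y ∈ P.parts, Y ≠ X ∧ IsLDCoalition G X Y

/-- `C_L(G)`: the largest number of parts of an LDC-partition of `G`. -/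
noncomputable def CL (G : SimpleGraph V) : ℕ :=
  sSup {k | ∃ P : Finpartition (Finset.univ : Finset V), IsLDCPartition G P ∧ P.parts.card = k}

omit [DecidableEq V] in
theorem isLD_univ (G : SimpleGraph V) : IsLD G Finset.univ :=
  ⟨fun v hv => absurd (Finset.mem_univ v) hv, fun u _ hu => absurd (Finset.mem_univ u) hu⟩

theorem not_isLD_singleton (G : SimpleGraph V) (hn : 3 ≤ Fintype.card V) (b : V) :
    ¬ IsLD G {b} := by
  rintro ⟨hd, hl⟩
  have hc : 2 ≤ (Finset.univ.erase b).card := by
    rw [Finset.card_erase_of_mem (Finset.mem_univ b), Finset.card_univ]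
    omega
  obtain ⟨u, hu, v, hv, huv⟩ := Finset.one_lt_card.mp (by omega : 1 < (Finset.univ.erase b).card)
  have hub : u ∉ ({b} : Finset V) := by simpa using hu
  have hvb : v ∉ ({b} : Finset V) := by simpa using hv
  apply hl u v hub hvb huv
  have key : ∀ w, w ∉ ({b} : Finset V) →
      G.neighborSet w ∩ (({b} : Finset V) : Set V) = {b} := by
    intro w hw
    obtain ⟨c, hc, hadj⟩ := hd w hw
    rw [Finset.mem_singleton] at hc
    subst hc
    ext x
    simp only [Finset.coe_singleton, Set.mem_inter_iff, SimpleGraph.mem_neighborSet,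
      Set.mem_singleton_iff]
    constructor
    · exact fun h => h.2
    · intro h; subst h; exact ⟨hadj, rfl⟩
  rw [key u hub, key v hvb]

theorem exists_partition (G : SimpleGraph V) (hn : 3 ≤ Fintype.card V) :
    ∃ P : Finpartition (Finset.univ : Finset V), IsLDCPartition G P ∧ 2 ≤ P.parts.card := by
  classical
  obtain ⟨b₀⟩ : Nonempty V := by
    rw [← Fintype.card_pos_iff]; omega
  -- a non-LD set of maximum cardinality
  obtain ⟨A, hA, hmax⟩ := Finset.exists_max_image
    (Finset.univ.filter fun A : Finset V => ¬ IsLD G A) Finset.card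
    ⟨{b₀}, by simpa using not_isLD_singleton G hn b₀⟩
  have hA' : ¬ IsLD G A := by simpa using hA
  have hadd : ∀ b, b ∉ A → IsLD G (A ∪ {b}) := by
    intro b hb
    by_contra hcon
    have h1 := hmax (A ∪ {b}) (by simpa using hcon)
    have h2 : (A ∪ {b}).card = A.card + 1 := by
      rw [Finset.card_union_of_disjoint (by simpa using hb)]
      simp
    omega
  have hAne : A.Nonempty := by
    rw [← Finset.card_pos]
    have := hmax {b₀} (by simpa using not_isLD_singleton G hn b₀)
    rw [Finset.card_singleton] at this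
    omega
  have hAuniv : A ≠ Finset.univ := by
    rintro rfl
    exact hA' (isLD_univ G)
  obtain ⟨b₁, hb₁⟩ : ∃ b, b ∉ A := by
    by_contra hcon
    push Not at hcon
    exact hAuniv (Finset.eq_univ_iff_forall.mpr hcon)
  -- the partition `{A} ∪ {{b} : b ∉ A}`
  let P : Finpartition (Finset.univ : Finset V) :=
    { parts := insert A ((Finset.univ \ A).image fun b => {b})
      supIndep := by
        rw [Finset.supIndep_iff_pairwiseDisjoint]
        intro X hX Y hY hXY
        simp only [Finset.coe_insert, Finset.coe_image, Set.mem_insert_iff, Set.mem_image] at hX hY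
        rcases hX with rfl | ⟨x, hx, rfl⟩ <;> rcases hY with rfl | ⟨y, hy, rfl⟩
        · exact absurd rfl hXY
        · simp only [Function.onFun, id]
          simpa using hy
        · simp only [Function.onFun, id]
          simpa using hx
        · simp only [Function.onFun, id]
          have : x ≠ y := fun h => hXY (by rw [h])
          simpa using this
      sup_parts := by
        ext x
        simp only [Finset.sup_insert, id, Finset.sup_image, Finset.mem_univ, iff_true]
        by_cases hx : x ∈ A
        · exact Finset.mem_union_left _ hx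
        · apply Finset.mem_union_right
          rw [Finset.mem_sup]
          exact ⟨x, by simpa using hx, by simp⟩
      bot_notMem := by
        simp only [Finset.bot_eq_empty, Finset.mem_insert, Finset.mem_image, not_or]
        refine ⟨fun h => ?_, ?_⟩
        · rw [← h] at hAne; exact Finset.not_nonempty_empty hAne
        · rintro ⟨x, _, hx⟩
          exact Finset.singleton_ne_empty x hx }
  have hAP : A ∈ P.parts := Finset.mem_insert_self _ _
  have hbP : ∀ b, b ∉ A → ({b} : Finset V) ∈ P.parts := fun b hb =>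
    Finset.mem_insert_of_mem (Finset.mem_image.mpr ⟨b, by simpa using hb, rfl⟩)
  have hne : ∀ b, b ∉ A → ({b} : Finset V) ≠ A := by
    intro b hb h
    apply hb
    rw [← h]
    simp
  have hcoal : ∀ b, b ∉ A → IsLDCoalition G A {b} := fun b hb =>
    ⟨by simpa using hb, hA', not_isLD_singleton G hn b, hadd b hb⟩
  refine ⟨P, ?_, ?_⟩
  · intro X hX
    rcases Finset.mem_insert.mp hX with rfl | hX'
    · exact ⟨hA', {b₁}, hbP b₁ hb₁, hne b₁ hb₁, hcoal b₁ hb₁⟩
    · obtain ⟨b, hb, rfl⟩ := Finset.mem_image.mp hX'
      have hb' : b ∉ A := by simpa using hb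
      obtain ⟨h1, h2, h3, h4⟩ := hcoal b hb'
      exact ⟨h3, A, hAP, (hne b hb').symm, h1.symm, h3, h2, by rwa [Finset.union_comm]⟩
  · exact Finset.one_lt_card.mpr ⟨A, hAP, {b₁}, hbP b₁ hb₁, (hne b₁ hb₁).symm⟩

theorem two_le_CL (G : SimpleGraph V) (hn : 3 ≤ Fintype.card V) : 2 ≤ CL G := by
  obtain ⟨P, hP, h2⟩ := exists_partition G hn
  refine h2.trans (le_csSup ⟨Fintype.card V, ?_⟩ ⟨P, hP, rfl⟩)
  rintro k ⟨Q, _, rfl⟩
  simpa using Q.card_parts_le_card

theorem three_le_card (G : SimpleGraph V) (hc : G.Connected) (hd : G.diam = 2) :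
    3 ≤ Fintype.card V := by
  by_contra hcon
  have hlt : Fintype.card V ≤ 2 := by omega
  have hne : Nonempty V := hc.nonempty
  have htop : G.ediam ≠ ⊤ := by
    intro h
    simp [SimpleGraph.diam, h] at hd
  obtain ⟨u, v, huv⟩ := G.exists_dist_eq_diam
  rw [hd] at huv
  have huv' : u ≠ v := by
    rintro rfl
    simp at huv
  have hnadj : ¬ G.Adj u v := by
    intro h
    rw [SimpleGraph.dist_eq_one_iff_adj.mpr h] at huv
    omega
  -- a neighbour of `u` is a third vertex
  obtain ⟨w, hw⟩ : ∃ w, G.Adj u w := by
    obtain ⟨p, hp⟩ := hc.exists_walk_length_eq_dist u v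
    cases p with
    | nil => simp at huv
    | cons h _ => exact ⟨_, h⟩
  have hwu : w ≠ u := hw.ne'
  have hwv : w ≠ v := fun h => hnadj (h ▸ hw)
  have : ({u, v, w} : Finset V).card ≤ Fintype.card V := Finset.card_le_univ _
  rw [Finset.card_eq_three.mpr ⟨u, v, w, huv', hwu.symm, hwv.symm, rfl⟩] at this
  omega

/-- **Every finite simple graph with at least three vertices has an LDC-partition**, so
`C_L(G) ≥ 2`; in particular every connected graph of diameter `2` has an LDC-partition and
satisfies `C_L(G) ≥ 2`. -/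
theorem result {V : Type*} [Fintype V] [DecidableEq V] (G : SimpleGraph V) :
    (3 ≤ Fintype.card V →
      (∃ P : Finpartition (Finset.univ : Finset V), IsLDCPartition G P) ∧ 2 ≤ CL G) ∧
    (G.Connected → G.diam = 2 →
      (∃ P : Finpartition (Finset.univ : Finset V), IsLDCPartition G P) ∧ 2 ≤ CL G) := by
  have key : 3 ≤ Fintype.card V →
      (∃ P : Finpartition (Finset.univ : Finset V), IsLDCPartition G P) ∧ 2 ≤ CL G := by
    intro hn
    obtain ⟨P, hP, _⟩ := exists_partition G hn
    exact ⟨⟨P, hP⟩, two_le_CL G hn⟩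
  exact ⟨key, fun hc hd => key (three_le_card G hc hd)⟩

end Pool.Agent.Results.MP_c852bb_co.DiameterTwoLDC
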